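import Mathlib

/-!
# Restrictions of cuspidal functions of `PGL₂(F)` to the unipotent set

For a finite field `F` with `#F ≡ 1` modulo `4` the function on the unipotent elements of `PGL₂(F)`
which is `1` on one of the two `PSL₂(F)` classes of regular unipotent elements, `-1` on the other
and `0` at the identity has vanishing sums over all cosets contained in the unipotent set, but it is
not the restriction of a cuspidal function. The reason: it is multiplied by the quadratic character
of the determinant under conjugation, and no cuspidal representation of `PGL₂(F)` is isomorphic to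
its twist by this character. The proof below averages a cuspidal function over the conjugates of the
coset `w N`.
-/

set_option autoImplicit false

namespace Pool.Agent.Results.MP_21a573_al.RegularUnipotent

open Matrix

/-! ### Definitions -/

/-- `PGL₂` over a field. -/
abbrev PG (K : Type*) [Field K] : Type _ := Matrix.ProjGenLinGroup (Fin 2) K

/-- The class of an invertible matrix in `PGL₂`. -/
noncomputable abbrev cl {K : Type*} [Field K] (A : GL (Fin 2) K) : PG K :=
  Matrix.ProjGenLinGroup.mk A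

/-- The upper unitriangular matrix with entry `t`. -/
noncomputable def upper {K : Type*} [Field K] (t : K) : GL (Fin 2) K :=
  Matrix.GeneralLinearGroup.mkOfDetNeZero !![1, t; 0, 1] (by simp)

/-- The value of a polynomial in the four matrix entries. -/
noncomputable def polyVal {K : Type*} [Field K] (P : MvPolynomial (Fin 2 × Fin 2) K)
    (A : GL (Fin 2) K) : K :=
  MvPolynomial.eval (fun ij => (A : Matrix (Fin 2) (Fin 2) K) ij.1 ij.2) P

/-- The inverse image in `GL₂(K)` of the Zariski closure of the conjugacy class of `x` in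
`PGL₂(K)`. -/
def closureClass {K : Type*} [Field K] (x : PG K) : Set (GL (Fin 2) K) :=
  {A | ∀ P : MvPolynomial (Fin 2 × Fin 2) K,
    (∀ B : GL (Fin 2) K, IsConj x (cl B) → polyVal P B = 0) → polyVal P A = 0}

/-- The `F`-points of the Zariski closure of the geometric conjugacy class of `x`. -/
def Obar (F : Type*) [Field F] (x : PG (AlgebraicClosure F)) : Set (PG F) :=
  {g | ∃ A : GL (Fin 2) F, cl A = g ∧
    Matrix.GeneralLinearGroup.map (algebraMap F (AlgebraicClosure F)) A ∈ closureClass x}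

/-- A function on `PGL₂(F)` is cuspidal if its sums over all cosets `g U` vanish, where
`U = x N x⁻¹` runs over the unipotent radicals of the Borel subgroups. -/
def Cuspidal {F : Type*} [Field F] [Fintype F] (f : PG F → ℂ) : Prop :=
  ∀ g x : PG F, ∑ t : F, f (g * (x * cl (upper t) * x⁻¹)) = 0

/-- Membership in the space `S_w`: the sums over the cosets `g U` contained in the closure of the
class vanish. -/
def InSw {F : Type*} [Field F] [Fintype F] {x₀ : PG (AlgebraicClosure F)}
    (f : Obar F x₀ → ℂ) : Prop :=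
  ∀ (g x : PG F) (h : ∀ t : F, g * (x * cl (upper t) * x⁻¹) ∈ Obar F x₀),
    ∑ t : F, f ⟨g * (x * cl (upper t) * x⁻¹), h t⟩ = 0

/-- Membership in the space `S_cusp`: restrictions of cuspidal functions. -/
def InScusp {F : Type*} [Field F] [Fintype F] {x₀ : PG (AlgebraicClosure F)}
    (f : Obar F x₀ → ℂ) : Prop :=
  ∃ h : PG F → ℂ, Cuspidal h ∧ ∀ y : Obar F x₀, f y = h y

/-! ### The quadratic form of a matrix -/

section form

variable {F : Type*} [Field F]

/-- `v ∧ A v`. -/
def qf (A : GL (Fin 2) F) (v : Fin 2 → F) : F :=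
  v 0 * (A.1 *ᵥ v) 1 - v 1 * (A.1 *ᵥ v) 0

theorem wedge (M : Matrix (Fin 2) (Fin 2) F) (v w : Fin 2 → F) :
    (M *ᵥ v) 0 * (M *ᵥ w) 1 - (M *ᵥ v) 1 * (M *ᵥ w) 0 = M.det * (v 0 * w 1 - v 1 * w 0) := by
  simp only [Matrix.mulVec, dotProduct, Fin.sum_univ_two, Matrix.det_fin_two]
  ring

theorem qf_conj (A x : GL (Fin 2) F) (v : Fin 2 → F) :
    qf (x * A * x⁻¹) (x.1 *ᵥ v) = x.1.det * qf A v := by
  have h : (x * A * x⁻¹).1 *ᵥ (x.1 *ᵥ v) = x.1 *ᵥ (A.1 *ᵥ v) := by
    rw [Matrix.mulVec_mulVec, Matrix.mulVec_mulVec, ← Units.val_mul, inv_mul_cancel_right]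
    rfl
  unfold qf
  rw [h, wedge]

theorem qf_scalar (A : GL (Fin 2) F) (u : Fˣ) (v : Fin 2 → F) :
    qf (A * Matrix.GeneralLinearGroup.scalar (Fin 2) u) v = u.1 * qf A v := by
  unfold qf
  simp only [Units.val_mul, Matrix.GeneralLinearGroup.coe_scalar, Matrix.mulVec, dotProduct,
    Fin.sum_univ_two, Matrix.mul_apply, Matrix.scalar_apply, Matrix.diagonal_apply]
  simp
  ring

end form

section sign

variable {F : Type*} [Field F] [Fintype F] [DecidableEq F]

/-- The quadratic character with complex values. -/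
noncomputable def chi (a : F) : ℂ := ((quadraticChar F a : ℤ) : ℂ)

theorem chi_mul (a b : F) : chi (a * b) = chi a * chi b := by
  unfold chi
  rw [map_mul]
  push_cast
  rfl

theorem chi_sq {a : F} (ha : a ≠ 0) : chi (a ^ 2) = 1 := by
  unfold chi
  rw [quadraticChar_sq_one' ha]
  norm_num

theorem chi_sq' {a : F} (ha : a ≠ 0) : chi a * chi a = 1 := by
  rw [← chi_mul, ← sq, chi_sq ha]

theorem chi_zero : chi (0 : F) = 0 := by
  unfold chi
  simp

/-- The sum of the values of the quadratic character over the quadratic form of a matrix,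
normalised by the trace. -/
noncomputable def phi (A : GL (Fin 2) F) : ℂ :=
  ∑ v : Fin 2 → F, chi (2 * A.1.trace * qf A v)

theorem phi_scalar (A : GL (Fin 2) F) (u : Fˣ) :
    phi (A * Matrix.GeneralLinearGroup.scalar (Fin 2) u) = phi A := by
  unfold phi
  refine Finset.sum_congr rfl fun v _ => ?_
  rw [qf_scalar]
  have h : (A * Matrix.GeneralLinearGroup.scalar (Fin 2) u).1.trace = u.1 * A.1.trace := by
    simp only [Units.val_mul, Matrix.GeneralLinearGroup.coe_scalar, Matrix.trace_fin_two,
      Fin.sum_univ_two, Matrix.mul_apply, Matrix.scalar_apply, Matrix.diagonal_apply]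
    simp
    ring
  rw [h, show 2 * (u.1 * A.1.trace) * (u.1 * qf A v) = u.1 ^ 2 * (2 * A.1.trace * qf A v) by ring,
    chi_mul, chi_sq u.ne_zero, one_mul]

omit [Fintype F] [DecidableEq F] in
theorem trace_conj (A x : GL (Fin 2) F) : (x * A * x⁻¹).1.trace = A.1.trace := by
  rw [Units.val_mul, Matrix.trace_mul_comm, ← Units.val_mul, ← mul_assoc, inv_mul_cancel, one_mul]

theorem phi_conj (A x : GL (Fin 2) F) : phi (x * A * x⁻¹) = chi x.1.det * phi A := by
  unfold phi
  rw [Finset.mul_sum]
  symm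
  refine Fintype.sum_bijective (fun v => x.1 *ᵥ v) ?_ _ _ ?_
  · refine Function.bijective_iff_has_inverse.2 ⟨fun v => (x⁻¹).1 *ᵥ v, fun v => ?_, fun v => ?_⟩
    · simp only [Matrix.mulVec_mulVec, ← Units.val_mul, inv_mul_cancel, Units.val_one,
        Matrix.one_mulVec]
    · simp only [Matrix.mulVec_mulVec, ← Units.val_mul, mul_inv_cancel, Units.val_one,
        Matrix.one_mulVec]
  · intro v
    rw [qf_conj, trace_conj, ← chi_mul]
    congr 1
    ring

/-- The function `phi` on `PGL₂(F)`. -/
noncomputable def phiG (g : PG F) : ℂ :=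
  phi (Classical.choose (Matrix.ProjGenLinGroup.mk_surjective g))

theorem phiG_cl (A : GL (Fin 2) F) : phiG (cl A) = phi A := by
  unfold phiG
  have h := Classical.choose_spec (Matrix.ProjGenLinGroup.mk_surjective (cl A))
  obtain ⟨u, hu⟩ := Matrix.ProjGenLinGroup.mk_eq_mk_iff.1 h
  have h2 := congrArg phi hu
  rw [phi_scalar] at h2
  exact h2

end sign

/-! ### The closure of the class of the regular unipotent elements -/

theorem closure_eq {K : Type*} [Field K] {A : GL (Fin 2) K}
    (hA : A ∈ closureClass (cl (upper (1 : K)))) : A.1.trace ^ 2 = 4 * A.1.det := by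
  let P : MvPolynomial (Fin 2 × Fin 2) K :=
    (MvPolynomial.X (0, 0) + MvPolynomial.X (1, 1)) ^ 2 - 4 * (MvPolynomial.X (0, 0) *
      MvPolynomial.X (1, 1) - MvPolynomial.X (0, 1) * MvPolynomial.X (1, 0))
  have hP : ∀ B : GL (Fin 2) K, polyVal P B = B.1.trace ^ 2 - 4 * B.1.det := by
    intro B
    simp only [polyVal, P, map_sub, map_add, map_mul, map_pow, MvPolynomial.eval_X,
      Matrix.trace_fin_two, Matrix.det_fin_two, map_ofNat]
  have h := hA P ?_
  · rw [hP] at h
    linear_combination h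
  · intro B hB
    rw [hP]
    obtain ⟨g, hg⟩ := isConj_iff.1 hB
    obtain ⟨X, rfl⟩ := Matrix.ProjGenLinGroup.mk_surjective g
    have h1 : cl (X * upper 1 * X⁻¹) = cl B := by
      rw [← hg]
      simp [cl]
    obtain ⟨u, hu⟩ := Matrix.ProjGenLinGroup.mk_eq_mk_iff.1 h1
    rw [← hu]
    have h2 : (X * upper 1 * X⁻¹).1.trace = 2 := by
      rw [Units.val_mul, Matrix.trace_mul_comm, ← Units.val_mul, ← mul_assoc, inv_mul_cancel,
        one_mul]
      simp [upper, Matrix.GeneralLinearGroup.mkOfDetNeZero, Matrix.trace_fin_two]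
      norm_num
    have h3 : (X * upper 1 * X⁻¹).1.det = 1 := by
      have : (X * upper 1 * X⁻¹).1.det = (upper (1 : K)).1.det := by
        rw [Units.val_mul, Units.val_mul, Matrix.det_mul, Matrix.det_mul, mul_comm, ← mul_assoc,
          ← Matrix.det_mul, ← Units.val_mul, inv_mul_cancel]
        simp
      rw [this]
      simp [upper, Matrix.GeneralLinearGroup.mkOfDetNeZero, Matrix.det_fin_two]
    have h4 : (X * upper 1 * X⁻¹ * Matrix.GeneralLinearGroup.scalar (Fin 2) u).1.trace =
        u.1 * (X * upper 1 * X⁻¹).1.trace := by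
      simp only [Units.val_mul (X * upper 1 * X⁻¹), Matrix.GeneralLinearGroup.coe_scalar,
        Matrix.trace_fin_two, Fin.sum_univ_two, Matrix.mul_apply (M := (X * upper 1 * X⁻¹).1),
        Matrix.scalar_apply, Matrix.diagonal_apply]
      simp
      ring
    have h5 : (X * upper 1 * X⁻¹ * Matrix.GeneralLinearGroup.scalar (Fin 2) u).1.det =
        u.1 ^ 2 * (X * upper 1 * X⁻¹).1.det := by
      rw [Units.val_mul, Matrix.det_mul, Matrix.GeneralLinearGroup.coe_scalar]
      simp [Matrix.det_fin_two]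
      ring
    rw [h4, h5, h2, h3]
    ring

/-! ### Elements of the closure -/

section points

variable {F : Type*} [Field F]

theorem upper_map {K : Type*} [Field K] (φ : F →+* K) (t : F) :
    Matrix.GeneralLinearGroup.map φ (upper t) = upper (φ t) := by
  ext i j
  fin_cases i <;> fin_cases j <;>
    simp [upper, Matrix.GeneralLinearGroup.mkOfDetNeZero]

theorem mem_Obar {A X : GL (Fin 2) F} {u : Fˣ}
    (h : X * upper 1 * X⁻¹ * Matrix.GeneralLinearGroup.scalar (Fin 2) u = A) :
    cl A ∈ Obar F (cl (upper 1)) := by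
  refine ⟨A, rfl, fun P hP => hP _ ?_⟩
  rw [← h]
  simp only [map_mul, map_inv, upper_map, map_one]
  have h2 : Matrix.GeneralLinearGroup.map (algebraMap F (AlgebraicClosure F))
      (Matrix.GeneralLinearGroup.scalar (Fin 2) u) =
      Matrix.GeneralLinearGroup.scalar (Fin 2) (Units.map (algebraMap F (AlgebraicClosure F)) u) := by
    ext i j
    fin_cases i <;> fin_cases j <;> simp [Matrix.GeneralLinearGroup.coe_scalar]
  rw [h2]
  refine isConj_iff.2 ⟨cl (Matrix.GeneralLinearGroup.map (algebraMap F (AlgebraicClosure F)) X), ?_⟩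
  simp [cl]

theorem trace_of_mem {A : GL (Fin 2) F} (h : cl A ∈ Obar F (cl (upper 1))) :
    A.1.trace ^ 2 = 4 * A.1.det := by
  obtain ⟨B, hB, hc⟩ := h
  have h1 := closure_eq hc
  have h2 : B.1.trace ^ 2 = 4 * B.1.det := by
    apply (algebraMap F (AlgebraicClosure F)).injective
    have e : algebraMap F (AlgebraicClosure F) 4 = 4 := map_ofNat _ 4
    simpa [Matrix.trace_fin_two, Matrix.det_fin_two, e] using h1
  obtain ⟨u, hu⟩ := Matrix.ProjGenLinGroup.mk_eq_mk_iff.1 hB
  rw [← hu]
  have h4 : (B * Matrix.GeneralLinearGroup.scalar (Fin 2) u).1.trace = u.1 * B.1.trace := by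
    simp only [Units.val_mul, Matrix.GeneralLinearGroup.coe_scalar,
      Matrix.trace_fin_two, Fin.sum_univ_two, Matrix.mul_apply,
      Matrix.scalar_apply, Matrix.diagonal_apply]
    simp
    ring
  have h5 : (B * Matrix.GeneralLinearGroup.scalar (Fin 2) u).1.det = u.1 ^ 2 * B.1.det := by
    rw [Units.val_mul, Matrix.det_mul, Matrix.GeneralLinearGroup.coe_scalar]
    simp [Matrix.det_fin_two]
    ring
  rw [h4, h5, mul_pow, h2]
  ring

/-- The representative of the coset `w N`. -/
noncomputable def zt (t : F) : GL (Fin 2) F :=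
  Matrix.GeneralLinearGroup.mkOfDetNeZero !![0, -1; 1, t] (by simp)

theorem zt_mul (t : F) : zt (0 : F) * upper t = zt t := by
  ext i j
  fin_cases i <;> fin_cases j <;>
    simp [zt, upper, Matrix.GeneralLinearGroup.mkOfDetNeZero, Matrix.mul_apply, Fin.sum_univ_two]

theorem zt_two : ∃ X : GL (Fin 2) F, X * upper 1 * X⁻¹ = zt (2 : F) := by
  refine ⟨Matrix.GeneralLinearGroup.mkOfDetNeZero !![1, -1; -1, 0] (by simp), ?_⟩
  rw [mul_inv_eq_iff_eq_mul]
  ext i j
  fin_cases i <;> fin_cases j <;>
    simp [zt, upper, Matrix.GeneralLinearGroup.mkOfDetNeZero, Matrix.mul_apply, Fin.sum_univ_two]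
  all_goals norm_num

theorem zt_neg_two : ∃ X : GL (Fin 2) F,
    X * upper 1 * X⁻¹ * Matrix.GeneralLinearGroup.scalar (Fin 2) (-1) = zt (-2 : F) := by
  refine ⟨Matrix.GeneralLinearGroup.mkOfDetNeZero !![1, 0; 1, 1] (by simp), ?_⟩
  have h : Matrix.GeneralLinearGroup.mkOfDetNeZero !![(1 : F), 0; 1, 1] (by simp) * upper 1 =
      zt (-2 : F) * Matrix.GeneralLinearGroup.scalar (Fin 2) (-1) *
      Matrix.GeneralLinearGroup.mkOfDetNeZero !![(1 : F), 0; 1, 1] (by simp) := by
    ext i j
    fin_cases i <;> fin_cases j <;>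
      simp [zt, upper, Matrix.GeneralLinearGroup.mkOfDetNeZero, Matrix.mul_apply,
        Fin.sum_univ_two]
    all_goals norm_num
  rw [h, mul_inv_cancel_right, mul_assoc, ← map_mul]
  simp

end points

/-! ### The function lies in `S_w` -/

section main

variable {F : Type*} [Field F] [Fintype F] [DecidableEq F]

omit [DecidableEq F] in
theorem two_ne (h4 : Fintype.card F % 4 = 1) : (2 : F) ≠ 0 := by
  intro h
  have h1 : ringChar F = 2 := by
    have : (ringChar F) ∣ 2 := (ringChar.spec F 2).1 (by exact_mod_cast h)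
    rcases (Nat.dvd_prime Nat.prime_two).1 this with h | h
    · exact absurd h (CharP.ringChar_ne_one)
    · exact h
  have h2 := FiniteField.even_card_of_char_two h1
  omega

omit [DecidableEq F] in
theorem char_ne (h4 : Fintype.card F % 4 = 1) : ringChar F ≠ 2 := by
  intro h1
  have h2 := FiniteField.even_card_of_char_two h1
  omega

theorem sum_chi (h4 : Fintype.card F % 4 = 1) : ∑ t : F, chi t = 0 := by
  unfold chi
  rw [← Int.cast_sum, quadraticChar_sum_zero (char_ne h4), Int.cast_zero]

theorem chi_neg_one (h4 : Fintype.card F % 4 = 1) : chi (-1 : F) = 1 := by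
  unfold chi
  rw [(quadraticChar_one_iff_isSquare (by simp)).2]
  · simp
  · exact FiniteField.isSquare_neg_one_iff.2 (by omega)

theorem sum_coset (h4 : Fintype.card F % 4 = 1) (A X : GL (Fin 2) F)
    (h : ∀ t : F, cl (A * (X * upper t * X⁻¹)) ∈ Obar F (cl (upper 1))) :
    ∑ t : F, phi (A * (X * upper t * X⁻¹)) = 0 := by
  have h2 := two_ne h4
  set B : GL (Fin 2) F := X⁻¹ * A * X with hB
  have e : ∀ t, A * (X * upper t * X⁻¹) = X * (B * upper t) * X⁻¹ := by
    intro t
    rw [hB]
    group
  have hm : ∀ t, (B * upper t).1 = !![B.1 0 0, B.1 0 0 * t + B.1 0 1; B.1 1 0, B.1 1 0 * t + B.1 1 1] := by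
    intro t
    ext i j
    fin_cases i <;> fin_cases j <;>
      simp [upper, Matrix.GeneralLinearGroup.mkOfDetNeZero, Matrix.mul_apply,
        Fin.sum_univ_two]
  have ht : ∀ t, (B.1 0 0 + (B.1 1 0 * t + B.1 1 1)) ^ 2 = 4 * B.1.det := by
    intro t
    have h5 := trace_of_mem (h t)
    rw [e, trace_conj] at h5
    have h6 : (X * (B * upper t) * X⁻¹).1.det = B.1.det := by
      rw [Units.val_mul, Units.val_mul, Matrix.det_mul, Matrix.det_mul, mul_comm, ← mul_assoc,
        ← Matrix.det_mul, ← Units.val_mul, inv_mul_cancel]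
      simp [upper, Matrix.GeneralLinearGroup.mkOfDetNeZero]
    rw [h6, hm, Matrix.trace_fin_two] at h5
    simpa using h5
  have hc : B.1 1 0 = 0 := by
    by_contra hne
    have e0 := ht 0
    have e1 := ht 1
    have e2 := ht (-1)
    have e3 : B.1 1 0 * (2 * (B.1 0 0 + B.1 1 1) + B.1 1 0) = 0 := by linear_combination e1 - e0
    have e4 : B.1 1 0 * (2 * (B.1 0 0 + B.1 1 1) - B.1 1 0) = 0 := by linear_combination e0 - e2
    have e5 := (mul_eq_zero.1 e3).resolve_left hne
    have e6 := (mul_eq_zero.1 e4).resolve_left hne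
    exact hne ((mul_eq_zero.1 (show 2 * B.1 1 0 = 0 by linear_combination e5 - e6)).resolve_left h2)
  have hd : B.1 0 0 = B.1 1 1 := by
    have e0 := ht 0
    rw [Matrix.det_fin_two, hc] at e0
    have : (B.1 0 0 - B.1 1 1) ^ 2 = 0 := by linear_combination e0
    exact sub_eq_zero.1 ((pow_eq_zero_iff (two_ne_zero)).1 this)
  have ha : B.1 0 0 ≠ 0 := by
    intro h0
    have := (Matrix.GeneralLinearGroup.det B).ne_zero
    rw [Matrix.GeneralLinearGroup.val_det_apply, Matrix.det_fin_two, hc, h0] at this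
    simp at this
  have hphi : ∀ t, phi (B * upper t) =
      chi (B.1 0 0 * t + B.1 0 1) * (chi (-(B.1 0 0)) * ∑ v : Fin 2 → F, chi ((2 * v 1) ^ 2)) := by
    intro t
    unfold phi
    rw [Finset.mul_sum, Finset.mul_sum]
    refine Finset.sum_congr rfl fun v _ => ?_
    rw [← chi_mul, ← chi_mul]
    congr 1
    unfold qf
    rw [hm, Matrix.trace_fin_two]
    simp only [Matrix.mulVec, dotProduct, Fin.sum_univ_two, hc, ← hd]
    simp
    ring
  simp only [e, phi_conj, hphi]
  rw [← Finset.mul_sum, ← Finset.sum_mul]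
  have hs : ∑ t : F, chi (B.1 0 0 * t + B.1 0 1) = 0 := by
    rw [← sum_chi h4]
    refine Fintype.sum_bijective (fun t => B.1 0 0 * t + B.1 0 1) ?_ _ _ (fun t => rfl)
    refine Function.bijective_iff_has_inverse.2 ⟨fun s => (s - B.1 0 1) / B.1 0 0, fun t => ?_,
      fun s => ?_⟩
    · field_simp
      ring
    · field_simp
      ring
  rw [hs, zero_mul, mul_zero]

theorem inSw (h4 : Fintype.card F % 4 = 1) :
    InSw (fun y : Obar F (cl (upper 1)) => phiG y.1) := by
  intro g x h
  obtain ⟨A, rfl⟩ := Matrix.ProjGenLinGroup.mk_surjective g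
  obtain ⟨X, rfl⟩ := Matrix.ProjGenLinGroup.mk_surjective x
  have e : ∀ t : F, cl A * (cl X * cl (upper t) * (cl X)⁻¹) = cl (A * (X * upper t * X⁻¹)) := by
    intro t
    simp [cl]
  have h' : ∀ t : F, cl (A * (X * upper t * X⁻¹)) ∈ Obar F (cl (upper 1)) := by
    intro t
    have := h t
    rwa [e] at this
  have e2 : ∀ t : F, phiG (cl A * (cl X * cl (upper t) * (cl X)⁻¹)) =
      phi (A * (X * upper t * X⁻¹)) := by
    intro t
    rw [e, phiG_cl]
  exact (Finset.sum_congr rfl fun t _ => e2 t).trans (sum_coset h4 A X h')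

/-! ### The function does not lie in `S_cusp` -/

theorem exists_comm (h4 : Fintype.card F % 4 = 1) (t : F) (h1 : t ≠ 2) (h2 : t ≠ -2) :
    ∃ c : GL (Fin 2) F, c * zt t = zt t * c ∧ chi c.1.det = -1 := by
  have h20 := two_ne h4
  have hd : (t ^ 2 - 4) / 4 ≠ 0 := by
    refine div_ne_zero ?_ ?_
    · intro h
      rcases mul_eq_zero.1 (show (t - 2) * (t + 2) = 0 by linear_combination h) with h | h
      · exact h1 (sub_eq_zero.1 h)
      · exact h2 (eq_neg_of_add_eq_zero_left h)
    · rw [show (4 : F) = 2 * 2 by norm_num]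
      exact mul_ne_zero h20 h20
  obtain ⟨ν, hν⟩ := FiniteField.exists_nonsquare (char_ne h4)
  obtain ⟨a, b, hab⟩ := FiniteField.exists_root_sum_quadratic
    (f := (Polynomial.X ^ 2 - Polynomial.C ν : Polynomial F))
    (g := (Polynomial.C (-((t ^ 2 - 4) / 4)) * Polynomial.X ^ 2 : Polynomial F))
    (Polynomial.degree_X_pow_sub_C (by norm_num) ν)
    (Polynomial.degree_C_mul_X_pow 2 (neg_ne_zero.2 hd)) (by omega)
  simp only [Polynomial.eval_sub, Polynomial.eval_pow, Polynomial.eval_X, Polynomial.eval_C,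
    Polynomial.eval_mul] at hab
  have hdet : (!![a - t * b / 2, -b; b, a + t * b / 2] : Matrix (Fin 2) (Fin 2) F).det = ν := by
    rw [Matrix.det_fin_two_of]
    have h40 : (4 : F) ≠ 0 := by
      rw [show (4 : F) = 2 * 2 by norm_num]
      exact mul_ne_zero h20 h20
    have e : (a - t * b / 2) * (a + t * b / 2) - -b * b = a ^ 2 - (t ^ 2 - 4) / 4 * b ^ 2 := by
      field_simp
      ring
    rw [e]
    linear_combination hab
  have hν0 : ν ≠ 0 := by
    rintro rfl
    exact hν (IsSquare.zero)
  refine ⟨Matrix.GeneralLinearGroup.mkOfDetNeZero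
    !![a - t * b / 2, -b; b, a + t * b / 2] (by rw [hdet]; exact hν0), ?_, ?_⟩
  · ext i j
    fin_cases i <;> fin_cases j <;>
      simp [zt, Matrix.GeneralLinearGroup.mkOfDetNeZero, Matrix.mul_apply, Fin.sum_univ_two]
    all_goals field_simp
    all_goals ring
  · have : (Matrix.GeneralLinearGroup.mkOfDetNeZero
      !![a - t * b / 2, -b; b, a + t * b / 2] (by rw [hdet]; exact hν0)).1.det = ν := hdet
    rw [this]
    unfold chi
    rw [quadraticChar_neg_one_iff_not_isSquare.2 hν]
    norm_num

theorem phi_two (h4 : Fintype.card F % 4 = 1) : phi (zt (2 : F)) =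
    ((Finset.univ.filter (fun v : Fin 2 → F => v 0 + v 1 ≠ 0)).card : ℂ) := by
  rw [Finset.natCast_card_filter]
  unfold phi
  refine Finset.sum_congr rfl fun v _ => ?_
  have e : 2 * (zt (2 : F)).1.trace * qf (zt 2) v = (2 * (v 0 + v 1)) ^ 2 := by
    unfold qf
    simp [zt, Matrix.GeneralLinearGroup.mkOfDetNeZero, Matrix.trace_fin_two, Matrix.mulVec,
      dotProduct, Fin.sum_univ_two]
    ring
  rw [e]
  split_ifs with hv
  · exact chi_sq (mul_ne_zero (two_ne h4) hv)
  · rw [not_not.1 hv]
    simp [chi_zero]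

theorem phi_neg_two (h4 : Fintype.card F % 4 = 1) : phi (zt (-2 : F)) =
    ((Finset.univ.filter (fun v : Fin 2 → F => v 0 - v 1 ≠ 0)).card : ℂ) := by
  rw [Finset.natCast_card_filter]
  unfold phi
  refine Finset.sum_congr rfl fun v _ => ?_
  have e : 2 * (zt (-2 : F)).1.trace * qf (zt (-2)) v = -1 * (2 * (v 0 - v 1)) ^ 2 := by
    unfold qf
    simp [zt, Matrix.GeneralLinearGroup.mkOfDetNeZero, Matrix.trace_fin_two, Matrix.mulVec,
      dotProduct, Fin.sum_univ_two]
    ring
  rw [e, chi_mul, chi_neg_one h4, one_mul]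
  split_ifs with hv
  · exact chi_sq (mul_ne_zero (two_ne h4) hv)
  · rw [not_not.1 hv]
    simp [chi_zero]

theorem not_inScusp (h4 : Fintype.card F % 4 = 1) :
    ¬ InScusp (fun y : Obar F (cl (upper 1)) => phiG y.1) := by
  rintro ⟨h, hcusp, hres⟩
  have hval : ∀ A : GL (Fin 2) F, cl A ∈ Obar F (cl (upper 1)) → h (cl A) = phi A := by
    intro A hA
    have := hres ⟨cl A, hA⟩
    rw [← this, ← phiG_cl]
  let T : F → ℂ := fun t => ∑ X : GL (Fin 2) F, chi X.1.det * h (cl (X * zt t * X⁻¹))
  have hT : ∑ t, T t = 0 := by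
    simp only [T]
    rw [Finset.sum_comm]
    refine Finset.sum_eq_zero fun X _ => ?_
    rw [← Finset.mul_sum]
    have hc := hcusp (cl (X * zt 0 * X⁻¹)) (cl X)
    have e : ∀ t : F, cl (X * zt 0 * X⁻¹) * (cl X * cl (upper t) * (cl X)⁻¹) =
        cl (X * zt t * X⁻¹) := by
      intro t
      rw [← zt_mul t]
      have : X * (zt 0 * upper t) * X⁻¹ = (X * zt 0 * X⁻¹) * (X * upper t * X⁻¹) := by group
      rw [this]
      simp [cl]
    rw [Finset.sum_congr rfl fun t _ => congrArg h (e t)] at hc
    rw [hc, mul_zero]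
  have hT0 : ∀ t, t ≠ 2 ∧ t ≠ -2 → T t = 0 := by
    rintro t ⟨h1, h2⟩
    obtain ⟨c, hc1, hc2⟩ := exists_comm h4 t h1 h2
    have h3 : T t = ∑ X : GL (Fin 2) F, chi (X * c).1.det *
        h (cl ((X * c) * zt t * (X * c)⁻¹)) :=
      (Fintype.sum_bijective (fun X => X * c) (Group.mulRight_bijective c) _ _
        (fun X => rfl)).symm
    have h5 : ∑ X : GL (Fin 2) F, chi (X * c).1.det *
        h (cl ((X * c) * zt t * (X * c)⁻¹)) = - T t := by
      simp only [T]
      rw [← Finset.sum_neg_distrib]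
      refine Finset.sum_congr rfl fun X _ => ?_
      have e : (X * c) * zt t * (X * c)⁻¹ = X * zt t * X⁻¹ := by
        rw [_root_.mul_inv_rev, mul_assoc X c, hc1]
        group
      rw [e, Units.val_mul, Matrix.det_mul, chi_mul, hc2]
      ring
    rw [h5] at h3
    linear_combination h3 / 2
  have hdet : ∀ X : GL (Fin 2) F, X.1.det ≠ 0 := by
    intro X
    have := (Matrix.GeneralLinearGroup.det X).ne_zero
    rwa [Matrix.GeneralLinearGroup.val_det_apply] at this
  have hval2 : ∀ (Z : GL (Fin 2) F), (∀ X : GL (Fin 2) F, cl (X * Z * X⁻¹) ∈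
      Obar F (cl (upper 1))) → ∑ X : GL (Fin 2) F, chi X.1.det * h (cl (X * Z * X⁻¹)) =
      (Fintype.card (GL (Fin 2) F) : ℂ) * phi Z := by
    intro Z hZ
    have : ∀ X : GL (Fin 2) F, chi X.1.det * h (cl (X * Z * X⁻¹)) = phi Z := by
      intro X
      rw [hval _ (hZ X), phi_conj, ← mul_assoc, chi_sq' (hdet X), one_mul]
    simp only [this, Finset.sum_const, Finset.card_univ, nsmul_eq_mul]
  have hT2 : T 2 = (Fintype.card (GL (Fin 2) F) : ℂ) * phi (zt (2 : F)) := by
    refine hval2 _ fun X => ?_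
    obtain ⟨Y, hY⟩ := zt_two (F := F)
    refine mem_Obar (X := X * Y) (u := 1) ?_
    rw [← hY]
    simp only [map_one, mul_one]
    group
  have hT3 : T (-2) = (Fintype.card (GL (Fin 2) F) : ℂ) * phi (zt (-2 : F)) := by
    refine hval2 _ fun X => ?_
    obtain ⟨Y, hY⟩ := zt_neg_two (F := F)
    refine mem_Obar (X := X * Y) (u := -1) ?_
    rw [← hY]
    have hcomm : ∀ g : GL (Fin 2) F, Matrix.GeneralLinearGroup.scalar (Fin 2) (-1) * g =
        g * Matrix.GeneralLinearGroup.scalar (Fin 2) (-1) := by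
      intro g
      ext i j
      simp [Matrix.GeneralLinearGroup.coe_scalar]
    rw [_root_.mul_inv_rev]
    simp only [mul_assoc]
    rw [hcomm]
  have hne : (2 : F) ≠ -2 := by
    intro h0
    have h20 := two_ne h4
    have : (2 : F) * 2 = 0 := by linear_combination h0
    exact h20 ((mul_eq_zero.1 this).elim id id)
  rw [Fintype.sum_eq_add 2 (-2) hne hT0, hT2, hT3, phi_two h4, phi_neg_two h4] at hT
  have hpos : 0 < (Finset.univ.filter (fun v : Fin 2 → F => v 0 + v 1 ≠ 0)).card := by
    refine Finset.card_pos.2 ⟨fun i => if i = 0 then 1 else 0, ?_⟩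
    simp
  have hcard : 0 < Fintype.card (GL (Fin 2) F) := Fintype.card_pos
  have hN : Fintype.card (GL (Fin 2) F) *
      ((Finset.univ.filter (fun v : Fin 2 → F => v 0 + v 1 ≠ 0)).card) +
      Fintype.card (GL (Fin 2) F) *
      ((Finset.univ.filter (fun v : Fin 2 → F => v 0 - v 1 ≠ 0)).card) = 0 := by
    exact_mod_cast hT
  have := Nat.mul_pos hcard hpos
  omega

end main

/-- **Disproof.** For `G = PGL₂` over a finite field `F` with `#F ≡ 1` modulo `4` and the class of
the regular unipotent elements, there is a function on the `F`-points of the closure of the class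
which has vanishing sums over all cosets `g U` contained in the closure, but which is not the
restriction of a cuspidal function on `PGL₂(F)`. -/
theorem result (F : Type) [Field F] [Fintype F] (hF : Fintype.card F % 4 = 1) :
    ∃ f : Obar F (cl (upper (1 : AlgebraicClosure F))) → ℂ, InSw f ∧ ¬ InScusp f := by
  classical
  exact ⟨fun y => phiG y.1, inSw hF, not_inScusp hF⟩

end Pool.Agent.Results.MP_21a573_al.RegularUnipotent
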